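import Mathlib
import Pool.Agent.H723R2.LSWDens

/-!
The sets of the integers in wandering domains of `f₀` and in the basins of its integer cycles:
invariance under the `3x+1` function.
-/

set_option autoImplicit false

open Filter Topology Metric Set

namespace Pool.Agent.R630.WD

open Pool.Agent.H384R2.Fatou
open Pool.Agent.H723R2.LSW (f₀ T Mer Wild f₀_iter cast_iter)

/-- the integers whose Fatou component is a wandering domain -/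
def Wn : Set ℤ := {n | IsWanderingDomain f₀ (FatouComponent f₀ n)}

/-- the integers attracted to the cycle of `a` -/
def Bn (a : ℤ) (p : ℕ) : Set ℤ :=
  {n | (n : ℂ) ∈ FatouSet f₀ ∧ ¬ IsWanderingDomain f₀ (FatouComponent f₀ n) ∧
    ∃ k : ℕ, ∀ z ∈ FatouComponent f₀ n,
      Tendsto (fun m : ℕ => f₀^[k + p * m] z) atTop (𝓝 (a : ℂ))}

theorem mer_T (x : ℤ) : Mer x (T x) := ⟨1, 0, rfl⟩

theorem wn_iff (x : ℤ) : x ∈ Wn ↔ Wild x := Pool.Agent.H723R2.LSW.wandering_iff x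

theorem wn_mer {x y : ℤ} (h : Mer x y) : x ∈ Wn ↔ y ∈ Wn := by
  rw [wn_iff, wn_iff]
  exact ⟨Pool.Agent.H723R2.LSW.wild_mer h, Pool.Agent.H723R2.LSW.wild_mer h.symm⟩

theorem bn_iff {a : ℤ} {p : ℕ} (hp : 0 < p) (ha : f₀^[p] (a : ℂ) = a) (x : ℤ) :
    x ∈ Bn a p ↔ Mer x a :=
  Pool.Agent.H723R2.LSW.basin_iff hp (cast_iter.1 ha)

theorem bn_mer {a : ℤ} {p : ℕ} (hp : 0 < p) (ha : f₀^[p] (a : ℂ) = a) {x y : ℤ} (h : Mer x y) :
    x ∈ Bn a p ↔ y ∈ Bn a p := by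
  rw [bn_iff hp ha, bn_iff hp ha]
  exact ⟨h.symm.trans, h.trans⟩

theorem wn_inv (x : ℤ) : x ∈ Wn ↔ T x ∈ Wn := wn_mer (mer_T x)

theorem bn_inv {a : ℤ} {p : ℕ} (hp : 0 < p) (ha : f₀^[p] (a : ℂ) = a) (x : ℤ) :
    x ∈ Bn a p ↔ T x ∈ Bn a p := bn_mer hp ha (mer_T x)

/-- natural density among the integers of sign `s` -/
def HD (s : ℤ) (S : Set ℤ) (d : ℝ) : Prop :=
  Tendsto (fun N : ℕ => ({n : ℤ | 0 < s * n ∧ s * n ≤ N ∧ n ∈ S}.ncard : ℝ) / N) atTop (𝓝 d)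

theorem HD.unique {s : ℤ} {S : Set ℤ} {d d' : ℝ} (h : HD s S d) (h' : HD s S d') : d = d' :=
  tendsto_nhds_unique h h'

/-- the densities of the wandering integers and of the basins -/
theorem dens {s : ℤ} (hs : s = 1 ∨ s = -1) : ∃ (w : ℝ) (β : ℤ → ℝ),
    HD s Wn w ∧ (w = 0 ↔ ∀ n : ℤ, 0 < s * n → n ∉ Wn) ∧
    ∀ (a : ℤ) (p : ℕ), 0 < s * a → 0 < p → f₀^[p] (a : ℂ) = a → 0 < β a ∧ HD s (Bn a p) (β a) := by
  obtain ⟨w, β, h1, h2, h3, h4, -⟩ := Pool.Agent.H723R2.LSW.main hs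
  exact ⟨w, β, h1, h2, fun a p ha hp hpa => ⟨(h3 a ha).1, (h4 a p ha hp hpa).2⟩⟩

end Pool.Agent.R630.WD
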