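import Mathlib
import Pool.Agent.H723R2.LSWDens
import Pool.Agent.Results.MP_a247fa_nt.OddCriticalPoints

/-!
The critical points `c n ∈ (n, n + 1/2)`, `n` odd, of Chamberland's map, and the sets of integers
invariant under the `3x+1` map.  (Several lemmas are taken from
`Results/MP_a247fa_nt/CriticalPointsInSemigroups.lean`.)
-/

set_option autoImplicit false

open Filter Topology Set

namespace Pool.Agent.R630.WD.Cr

open Pool.Agent.H723R2.LSW (Mer Wild cast_iter)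

/-- Chamberland's map. -/
noncomputable def f (x : ℝ) : ℝ := x + 1 / 4 - (2 * x + 1) / 4 * Real.cos (Real.pi * x)

/-- The `3x+1` map. -/
def T (n : ℕ) : ℕ := if n % 2 = 0 then n / 2 else (3 * n + 1) / 2

/-- Points of attracting cycles contained in `(0,∞)`. -/
def AttractingPoint (y : ℝ) : Prop :=
  0 < y ∧ 0 < Function.minimalPeriod f y ∧ |deriv (f^[Function.minimalPeriod f y]) y| < 1

/-- The orbit of `x` converges to the cycle of `y`. -/
def Attracts (y x : ℝ) : Prop :=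
  ∃ j : ℕ, Tendsto (fun k : ℕ => f^[k * Function.minimalPeriod f y + j] x) atTop (𝓝 y)

/-- `x` is attracted by the cycle `A₁ = {1, 2}` or by the cycle `A₂ = {a, f a}`, or its orbit ends in a
point of `[1.02, 1.05]` of period two. -/
def KnownFate (a x : ℝ) : Prop :=
  Attracts 1 x ∨ Attracts a x ∨ ∃ K, f^[K] x ∈ Set.Icc (1.02 : ℝ) 1.05 ∧ f^[K + 2] x = f^[K] x

/-- The orbits of `x` and `y` have, from some times on, the same integral parts. -/
def Merge (x y : ℝ) : Prop := ∃ i j : ℕ, ∀ k : ℕ, ⌊f^[k + i] x⌋ = ⌊f^[k + j] y⌋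

theorem zT (k n : ℕ) : Pool.Agent.H723R2.LSW.T^[k] (n : ℤ) = ((T^[k] n : ℕ) : ℤ) := by
  induction k with
  | zero => rfl
  | succ k ih =>
    rw [Function.iterate_succ_apply', ih, Function.iterate_succ_apply']
    generalize T^[k] n = m
    unfold T Pool.Agent.H723R2.LSW.T
    rcases Nat.mod_two_eq_zero_or_one m with h | h
    · rw [if_pos (by omega), if_pos h]
      push_cast
      rfl
    · rw [if_neg (by omega), if_neg (by omega)]
      push_cast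
      rfl

theorem T_iter_pos {n : ℕ} (hn : 1 ≤ n) (k : ℕ) : 1 ≤ T^[k] n :=
  Pool.Agent.H934R2.Ch.T_iter_pos hn k

/-- orbits which follow `T` -/
def Fol (n : ℕ) (x : ℝ) : Prop := ∀ k : ℕ, ((T^[k] n : ℕ) : ℝ) ≤ f^[k] x ∧
  f^[k] x ≤ (T^[k] n : ℕ) + 5 / (6 * (2 * ((T^[k] n : ℕ) : ℝ) + 1))

theorem fol_floor {n : ℕ} (hn : 1 ≤ n) {x : ℝ} (h : Fol n x) (k : ℕ) : ⌊f^[k] x⌋ = (T^[k] n : ℕ) := by
  obtain ⟨h1, h2⟩ := h k
  have h3 : (1 : ℝ) ≤ (T^[k] n : ℕ) := by exact_mod_cast T_iter_pos hn k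
  have h4 : 5 / (6 * (2 * ((T^[k] n : ℕ) : ℝ) + 1)) < 1 := by
    rw [div_lt_one (by positivity)]
    linarith
  rw [Int.floor_eq_iff]
  push_cast
  constructor
  · exact h1
  · linarith

theorem merge_iff {n m : ℕ} (hn : 1 ≤ n) (hm : 1 ≤ m) {x y : ℝ} (hx : Fol n x) (hy : Fol m y) :
    Merge x y ↔ Mer (n : ℤ) (m : ℤ) := by
  constructor
  · rintro ⟨i, j, h⟩
    have h1 := h 0
    rw [Nat.zero_add, Nat.zero_add, fol_floor hn hx, fol_floor hm hy] at h1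
    exact ⟨i, j, by rw [zT, zT]; exact h1⟩
  · rintro ⟨i, j, h⟩
    refine ⟨i, j, fun k => ?_⟩
    rw [fol_floor hn hx, fol_floor hm hy]
    rw [← zT, ← zT, Function.iterate_add_apply, Function.iterate_add_apply, h]

theorem fol_tendsto {n : ℕ} (hn : 1 ≤ n) {x : ℝ} (h : Fol n x) :
    Tendsto (fun k : ℕ => f^[k] x) atTop atTop ↔ Wild (n : ℤ) := by
  constructor
  · intro h1
    by_contra hcon
    obtain ⟨k, p, c, hp, hc, hk⟩ := Pool.Agent.H723R2.LSW.tame_hits hcon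
    -- the orbit is periodic from time `k` on
    have hc0 : c = ((T^[k] n : ℕ) : ℤ) := by rw [← hk, zT]
    set m := T^[k] n with hm
    have hper : T^[p] m = m := by
      have h2 := zT p m
      rw [← hc0, hc, hc0] at h2
      exact_mod_cast h2.symm
    have hperi : ∀ i : ℕ, T^[p * i] m = m := by
      intro i
      rw [Function.iterate_mul]
      exact Function.iterate_fixed hper i
    have h3 : ∀ i : ℕ, f^[p * i + k] x ≤ m + 1 := by
      intro i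
      have h4 := (h (p * i + k)).2
      have h5 : T^[p * i + k] n = m := by
        rw [Function.iterate_add_apply, ← hm, hperi]
      rw [h5] at h4
      have h6 : 5 / (6 * (2 * (m : ℝ) + 1)) ≤ 1 := by
        rw [div_le_one (by positivity)]
        have : (1 : ℝ) ≤ m := by exact_mod_cast T_iter_pos hn k
        linarith
      linarith
    have h7 : Tendsto (fun i : ℕ => p * i + k) atTop atTop :=
      tendsto_atTop_mono (fun i => by
        show i ≤ p * i + k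
        have := Nat.le_mul_of_pos_left i hp
        omega) tendsto_id
    have h8 := (h1.comp h7).eventually_ge_atTop ((m : ℝ) + 2)
    obtain ⟨i, hi⟩ := h8.exists
    have h9 := h3 i
    have h10 : (m : ℝ) + 2 ≤ f^[p * i + k] x := hi
    linarith
  · intro h1
    have hinj : Function.Injective (fun k : ℕ => T^[k] n) := by
      intro i j hij
      apply h1 i j
      rw [zT, zT]
      exact_mod_cast hij
    have h2 : Tendsto (fun k : ℕ => T^[k] n) atTop atTop := by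
      have h3 := hinj.tendsto_cofinite
      rwa [Nat.cofinite_eq_atTop] at h3
    have h4 : Tendsto (fun k : ℕ => ((T^[k] n : ℕ) : ℝ)) atTop atTop :=
      tendsto_natCast_atTop_atTop.comp h2
    exact tendsto_atTop_mono (fun k => (h k).1) h4

theorem reach_mer {n m : ℕ} {p : ℕ} (hp : 0 < p) (hpm : T^[p] m = m) :
    Mer (n : ℤ) (m : ℤ) ↔ ∃ k, T^[k] n = m := by
  constructor
  · rintro ⟨i, j, hij⟩
    rw [zT, zT] at hij
    have hij' : T^[i] n = T^[j] m := by exact_mod_cast hij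
    have hcp : ∀ l, T^[p * l] m = m := by
      intro l
      rw [Function.iterate_mul]
      exact Function.iterate_fixed hpm l
    refine ⟨p * j - j + i, ?_⟩
    have hle : j ≤ p * j := Nat.le_mul_of_pos_left j hp
    rw [Function.iterate_add_apply, hij', ← Function.iterate_add_apply,
      Nat.sub_add_cancel hle, hcp]
  · rintro ⟨k, hk⟩
    exact ⟨k, 0, by rw [zT, hk]; rfl⟩

theorem wild_T (x : ℤ) : Wild x ↔ Wild (Pool.Agent.H723R2.LSW.T x) :=
  ⟨Pool.Agent.H723R2.LSW.wild_mer ⟨1, 0, rfl⟩, Pool.Agent.H723R2.LSW.wild_mer ⟨0, 1, rfl⟩⟩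

theorem mer_T (a x : ℤ) : Mer x a ↔ Mer (Pool.Agent.H723R2.LSW.T x) a := by
  have h1 : Mer x (Pool.Agent.H723R2.LSW.T x) := ⟨1, 0, rfl⟩
  exact ⟨fun h => h1.symm.trans h, fun h => h1.trans h⟩

/-- the properties of the critical points which we consider -/
def Kind (a : ℝ) (c : ℕ → ℝ) (P : ℕ → Prop) : Prop :=
  ∃ P' : ℕ → Prop, (P' = (fun n => KnownFate a (c n)) ∨
    P' = (fun n => Tendsto (fun k : ℕ => f^[k] (c n)) atTop atTop) ∨
    ∃ m : ℕ, m % 2 = 1 ∧ P' = fun n => Merge (c n) (c m)) ∧ (P = P' ∨ P = fun n => ¬ P' n)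

theorem crit : ∃ (a : ℝ) (c : ℕ → ℝ),
    (a ∈ Set.Icc (1.19 : ℝ) 1.196 ∧ f (f a) = a ∧
      ∀ y, y = 1 ∨ y = 2 ∨ y = a ∨ y = f a → AttractingPoint y) ∧
    (∀ n : ℕ, n % 2 = 1 → (n : ℝ) < c n ∧ c n < n + 1 / 2 ∧ deriv f (c n) = 0 ∧
      ∀ x : ℝ, (n : ℝ) < x → x < n + 1 / 2 → deriv f x = 0 → x = c n) ∧
    (∀ n : ℕ, n % 2 = 1 → Fol n (c n)) ∧
    (∀ n : ℕ, n % 2 = 1 → (KnownFate a (c n) ↔ ∃ k, T^[k] n = 1)) := by
  obtain ⟨a, ha, hfa, _, hattr, _, _, hodd⟩ := Pool.Agent.Results.MP_a247fa_nt.OddCriticalPoints.result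
  choose! c hc1 hc2 hc3 hc4 hc5 hc6 hc7 using hodd
  exact ⟨a, c, ⟨ha, hfa, hattr⟩, fun n hn => ⟨hc1 n hn, hc2 n hn, hc3 n hn, hc4 n hn⟩,
    fun n hn k => hc5 n hn k, fun n hn => (hc6 n hn).symm⟩

theorem kind_set {a : ℝ} {c : ℕ → ℝ} (hfol : ∀ n : ℕ, n % 2 = 1 → Fol n (c n))
    (hkf : ∀ n : ℕ, n % 2 = 1 → (KnownFate a (c n) ↔ ∃ k, T^[k] n = 1)) {P : ℕ → Prop}
    (h : Kind a c P) : ∃ S : Set ℤ, (∀ x : ℤ, x ∈ S ↔ Pool.Agent.H723R2.LSW.T x ∈ S) ∧
      ∀ n : ℕ, n % 2 = 1 → (P n ↔ (n : ℤ) ∈ S) := by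
  obtain ⟨P', h1, h2⟩ := h
  have h3 : ∃ S : Set ℤ, (∀ x : ℤ, x ∈ S ↔ Pool.Agent.H723R2.LSW.T x ∈ S) ∧
      ∀ n : ℕ, n % 2 = 1 → (P' n ↔ (n : ℤ) ∈ S) := by
    rcases h1 with rfl | rfl | ⟨m, hm, rfl⟩
    · refine ⟨{x | Mer x 1}, fun x => mer_T 1 x, fun n hn => ?_⟩
      show KnownFate a (c n) ↔ Mer (n : ℤ) 1
      rw [hkf n hn]
      exact (reach_mer (m := 1) (p := 2) (by norm_num) rfl).symm
    · exact ⟨{x | Wild x}, wild_T, fun n hn => fol_tendsto (by omega) (hfol n hn)⟩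
    · exact ⟨{x | Mer x m}, fun x => mer_T m x,
        fun n hn => merge_iff (by omega) (by omega) (hfol n hn) (hfol m hm)⟩
  obtain ⟨S, h4, h5⟩ := h3
  rcases h2 with rfl | rfl
  · exact ⟨S, h4, h5⟩
  · exact ⟨Sᶜ, fun x => not_congr (h4 x), fun n hn => not_congr (h5 n hn)⟩

theorem half_lim : Tendsto (fun N : ℕ => (2 * ((N / 2 : ℕ) : ℝ)) / N) atTop (𝓝 1) := by
  have h1 : Tendsto (fun N : ℕ => (1 : ℝ) - 1 / N) atTop (𝓝 (1 - 0)) :=
    tendsto_const_nhds.sub tendsto_one_div_atTop_nhds_zero_nat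
  rw [sub_zero] at h1
  refine tendsto_of_tendsto_of_tendsto_of_le_of_le' h1 (tendsto_const_nhds (x := (1 : ℝ))) ?_ ?_
  · filter_upwards [eventually_ge_atTop 1] with N hN
    have hN0 : (0 : ℝ) < N := by exact_mod_cast hN
    rw [le_div_iff₀ hN0, sub_mul, one_mul, one_div, inv_mul_cancel₀ hN0.ne']
    have h2 : N ≤ 2 * (N / 2) + 1 := by omega
    have h3 : (N : ℝ) ≤ 2 * ((N / 2 : ℕ) : ℝ) + 1 := by exact_mod_cast h2
    linarith
  · filter_upwards [eventually_ge_atTop 1] with N hN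
    have hN0 : (0 : ℝ) < N := by exact_mod_cast hN
    rw [div_le_one hN0]
    have h2 : 2 * (N / 2) ≤ N := by omega
    exact_mod_cast h2

theorem count_split {S : Set ℤ} (hS : ∀ x : ℤ, x ∈ S ↔ Pool.Agent.H723R2.LSW.T x ∈ S)
    {P : ℕ → Prop} (hP : ∀ n : ℕ, n % 2 = 1 → (P n ↔ (n : ℤ) ∈ S)) (N : ℕ) :
    {n : ℤ | 0 < 1 * n ∧ 1 * n ≤ N ∧ n ∈ S}.ncard =
      {n : ℕ | n ≤ N ∧ n % 2 = 1 ∧ P n}.ncard +
        {n : ℤ | 0 < 1 * n ∧ 1 * n ≤ ((N / 2 : ℕ) : ℤ) ∧ n ∈ S}.ncard := by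
  have e1 : {n : ℤ | 0 < 1 * n ∧ 1 * n ≤ N ∧ n ∈ S} =
      (fun n : ℕ => (n : ℤ)) '' {n : ℕ | n ≤ N ∧ n % 2 = 1 ∧ P n} ∪
        (fun n : ℤ => 2 * n) '' {n : ℤ | 0 < 1 * n ∧ 1 * n ≤ ((N / 2 : ℕ) : ℤ) ∧ n ∈ S} := by
    ext x
    simp only [Set.mem_union, Set.mem_image, Set.mem_ofPred_eq]
    constructor
    · rintro ⟨h1, h2, h3⟩
      rcases Int.emod_two_eq_zero_or_one x with h4 | h4
      · right
        refine ⟨x / 2, ⟨by omega, by push_cast; omega, ?_⟩, by omega⟩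
        rw [hS] at h3
        have h5 : Pool.Agent.H723R2.LSW.T x = x / 2 := by
          unfold Pool.Agent.H723R2.LSW.T; rw [if_pos h4]
        rwa [h5] at h3
      · left
        refine ⟨x.toNat, ⟨by omega, by omega, ?_⟩, by omega⟩
        rw [hP _ (by omega)]
        have h5 : ((x.toNat : ℕ) : ℤ) = x := by omega
        rwa [h5]
    · rintro (⟨n, ⟨h1, h2, h3⟩, rfl⟩ | ⟨y, ⟨h1, h2, h3⟩, rfl⟩)
      · exact ⟨by omega, by omega, (hP n h2).1 h3⟩
      · refine ⟨by omega, by push_cast at h2; omega, ?_⟩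
        rw [hS]
        have h5 : Pool.Agent.H723R2.LSW.T (2 * y) = y := by
          unfold Pool.Agent.H723R2.LSW.T; rw [if_pos (by omega)]; omega
        rwa [h5]
  have hf1 : {n : ℕ | n ≤ N ∧ n % 2 = 1 ∧ P n}.Finite :=
    (Set.finite_Iic N).subset fun n hn => hn.1
  have hf2 : {n : ℤ | 0 < 1 * n ∧ 1 * n ≤ ((N / 2 : ℕ) : ℤ) ∧ n ∈ S}.Finite :=
    (Set.finite_Icc (0 : ℤ) ((N / 2 : ℕ) : ℤ)).subset fun n hn => ⟨by have := hn.1; omega, by
      have := hn.2.1; omega⟩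
  rw [e1, Set.ncard_union_eq _ (hf1.image _) (hf2.image _),
    Set.ncard_image_of_injective _ (fun a b h => by exact_mod_cast h),
    Set.ncard_image_of_injective _ (fun a b h => by have : 2 * a = 2 * b := h; omega)]
  rw [Set.disjoint_left]
  rintro x ⟨n, ⟨_, h2, _⟩, rfl⟩ ⟨y, _, h3⟩
  have h4 : 2 * y = (n : ℤ) := h3
  omega

theorem odd_density {S : Set ℤ} (hS : ∀ x : ℤ, x ∈ S ↔ Pool.Agent.H723R2.LSW.T x ∈ S) {δ : ℝ}
    (h : Tendsto (fun N : ℕ => ({n : ℤ | 0 < 1 * n ∧ 1 * n ≤ N ∧ n ∈ S}.ncard : ℝ) / N) atTop (𝓝 δ))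
    {P : ℕ → Prop} (hP : ∀ n : ℕ, n % 2 = 1 → (P n ↔ (n : ℤ) ∈ S)) :
    Tendsto (fun N : ℕ => 2 * ({n : ℕ | n ≤ N ∧ n % 2 = 1 ∧ P n}.ncard : ℝ) / N) atTop (𝓝 δ) := by
  have h2 : Tendsto (fun N : ℕ => N / 2) atTop atTop := Nat.tendsto_div_const_atTop (by norm_num)
  have h3 := (h.comp h2).mul half_lim
  have h4 := (h.const_mul 2).sub h3
  rw [mul_one, show 2 * δ - δ = δ by ring] at h4
  refine h4.congr' ?_
  filter_upwards [eventually_ge_atTop 2] with N hN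
  have hN0 : (0 : ℝ) < N := by exact_mod_cast (by omega : 0 < N)
  have hN1 : (0 : ℝ) < ((N / 2 : ℕ) : ℝ) := by exact_mod_cast (by omega : 0 < N / 2)
  rw [count_split hS hP N]
  simp only [Function.comp_apply]
  push_cast
  field_simp
  ring

end Pool.Agent.R630.WD.Cr
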